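import Mathlib
import Pool.Agent.Lib.MP_9a58dc_co.Defs
import Pool.Agent.Lib.MP_9a58dc_co.Upper

/-!
`ρ_2 ≥ 15/11`: an explicit strongly connected `2`-regular digraph on `33` vertices with
`γ(D) ≤ 11` and `γ(D⁻) ≥ 15`.  The second inequality is proved by a dynamic program (verified
below) which the kernel evaluates.
-/

set_option autoImplicit false

namespace Pool.Agent.Results.MP_9a58dc_co.FifteenElevenths

open Finset Pool.Agent.Lib.MP_9a58dc_co

/-! ### The dynamic program -/

/-- One step: the vertex `v`, the set `y` of items it covers (bit mask), the items that occur for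
the last time, and the items that are not completed after the step. -/
structure Step where
  v : ℕ
  y : ℕ
  done : ℕ
  keep : ℕ

/-- Insert a state (mask, cost), keeping the least cost for each mask. -/
def ins (s : ℕ × ℕ) : List (ℕ × ℕ) → List (ℕ × ℕ)
  | [] => [s]
  | t :: l => if t.1 = s.1 then (t.1, min t.2 s.2) :: l else t :: ins s l

def red (l : List (ℕ × ℕ)) : List (ℕ × ℕ) := l.foldr ins []

def cand (s : Step) (l : List (ℕ × ℕ)) : List (ℕ × ℕ) :=
  l ++ l.map fun e => (e.1 ||| s.y, e.2 + 1)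

def step (s : Step) (l : List (ℕ × ℕ)) : List (ℕ × ℕ) :=
  red (((cand s l).filter fun e => e.1 &&& s.done == s.done).map fun e => (e.1 &&& s.keep, e.2))

def run : List Step → List (ℕ × ℕ) → List (ℕ × ℕ)
  | [], st => st
  | s :: L, st => run L (step s st)

def fmask (sel : ℕ → Bool) : List Step → ℕ → ℕ
  | [], M => M
  | s :: L, M => fmask sel L (M ||| if sel s.v then s.y else 0)

def cnt (sel : ℕ → Bool) : List Step → ℕ
  | [] => 0
  | s :: L => (if sel s.v then 1 else 0) + cnt sel L

def ok : List Step → ℕ → Bool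
  | [], _ => true
  | s :: L, k => (s.done &&& k == s.done) && (s.keep &&& k == s.keep) &&
      (L.all fun t => t.y &&& s.done == 0) && ok L s.keep

theorem mem_ins (s : ℕ × ℕ) (l : List (ℕ × ℕ)) :
    (∃ e ∈ ins s l, e.1 = s.1 ∧ e.2 ≤ s.2) ∧
      ∀ t ∈ l, ∃ e ∈ ins s l, e.1 = t.1 ∧ e.2 ≤ t.2 := by
  induction l with
  | nil => exact ⟨⟨s, by simp [ins], rfl, le_rfl⟩, by simp⟩
  | cons a l ih =>
    unfold ins
    by_cases h : a.1 = s.1
    · rw [if_pos h]
      refine ⟨⟨_, List.mem_cons_self, h, min_le_right _ _⟩, ?_⟩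
      intro t ht
      rcases List.mem_cons.1 ht with rfl | ht
      · exact ⟨_, List.mem_cons_self, rfl, min_le_left _ _⟩
      · exact ⟨t, List.mem_cons_of_mem _ ht, rfl, le_rfl⟩
    · rw [if_neg h]
      refine ⟨?_, ?_⟩
      · obtain ⟨e, he, h1, h2⟩ := ih.1
        exact ⟨e, List.mem_cons_of_mem _ he, h1, h2⟩
      · intro t ht
        rcases List.mem_cons.1 ht with rfl | ht
        · exact ⟨_, List.mem_cons_self, rfl, le_rfl⟩
        · obtain ⟨e, he, h1, h2⟩ := ih.2 t ht
          exact ⟨e, List.mem_cons_of_mem _ he, h1, h2⟩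

theorem mem_red (l : List (ℕ × ℕ)) : ∀ t ∈ l, ∃ e ∈ red l, e.1 = t.1 ∧ e.2 ≤ t.2 := by
  induction l with
  | nil => simp
  | cons a l ih =>
    intro t ht
    have hr : red (a :: l) = ins a (red l) := rfl
    rw [hr]
    rcases List.mem_cons.1 ht with rfl | ht
    · exact (mem_ins _ _).1
    · obtain ⟨e, he, h1, h2⟩ := ih t ht
      obtain ⟨e', he', h1', h2'⟩ := (mem_ins a (red l)).2 e he
      exact ⟨e', he', h1'.trans h1, h2'.trans h2⟩

theorem fmask_and (sel : ℕ → Bool) (d : ℕ) : ∀ (L : List Step) (M : ℕ),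
    (∀ t ∈ L, t.y &&& d = 0) → fmask sel L M &&& d = M &&& d := by
  intro L
  induction L with
  | nil => intro M _; rfl
  | cons s L ih =>
    intro M h
    unfold fmask
    rw [ih _ fun t ht => h t (List.mem_cons_of_mem _ ht), Nat.and_or_distrib_right]
    have : (if sel s.v then s.y else 0) &&& d = 0 := by
      split_ifs
      · exact h s List.mem_cons_self
      · simp
    rw [this, Nat.or_zero]

theorem run_spec (sel : ℕ → Bool) : ∀ (L : List Step) (k M c : ℕ) (st : List (ℕ × ℕ)),
    ok L k = true → (∃ e ∈ st, e.1 = M &&& k ∧ e.2 ≤ c) →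
    (∀ s ∈ L, fmask sel L M &&& s.done = s.done) →
    ∃ e ∈ run L st, e.2 ≤ c + cnt sel L := by
  intro L
  induction L with
  | nil =>
    rintro k M c st - ⟨e, he, -, h⟩ -
    exact ⟨e, he, by simpa [cnt] using h⟩
  | cons s L ih =>
    rintro k M c st hok ⟨e, he, he1, he2⟩ hdone
    simp only [ok, Bool.and_eq_true, beq_iff_eq, List.all_eq_true] at hok
    obtain ⟨⟨⟨h1, h2⟩, h3⟩, h4⟩ := hok
    set b : ℕ := if sel s.v then s.y else 0 with hb
    set i : ℕ := if sel s.v then 1 else 0 with hi
    -- the new full mask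
    have hM : fmask sel (s :: L) M = fmask sel L (M ||| b) := rfl
    have hcov : (M ||| b) &&& s.done = s.done := by
      have := hdone s List.mem_cons_self
      rw [hM, fmask_and sel s.done L _ h3] at this
      exact this
    have key : ∀ d, d &&& k = d → (e.1 ||| b) &&& d = (M ||| b) &&& d := by
      intro d hd
      rw [Nat.and_or_distrib_right, Nat.and_or_distrib_right, he1, Nat.and_assoc, Nat.and_comm k d,
        hd]
    have hmem : (e.1 ||| b, e.2 + i) ∈ cand s st := by
      unfold cand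
      rw [List.mem_append]
      by_cases hs : sel s.v
      · right
        rw [List.mem_map]
        exact ⟨e, he, by simp [hb, hi, hs]⟩
      · left
        have : (e.1 ||| b, e.2 + i) = e := by simp [hb, hi, hs]
        rw [this]; exact he
    have hmem2 : ((e.1 ||| b) &&& s.keep, e.2 + i) ∈
        (((cand s st).filter fun e => e.1 &&& s.done == s.done).map
          fun e => (e.1 &&& s.keep, e.2)) := by
      rw [List.mem_map]
      refine ⟨(e.1 ||| b, e.2 + i), ?_, rfl⟩
      rw [List.mem_filter]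
      refine ⟨hmem, ?_⟩
      simp only [beq_iff_eq]
      rw [key _ h1, hcov]
    obtain ⟨e', he', he1', he2'⟩ := mem_red _ _ hmem2
    have := ih s.keep (M ||| b) (c + i) (step s st) h4
      ⟨e', he', by rw [he1']; exact key _ h2, by simp only at he2'; omega⟩
      (fun t ht => hdone t (List.mem_cons_of_mem _ ht))
    obtain ⟨e'', he'', h''⟩ := this
    refine ⟨e'', he'', ?_⟩
    have hc : cnt sel (s :: L) = i + cnt sel L := rfl
    omega

theorem fmask_testBit (sel : ℕ → Bool) (i : ℕ) : ∀ (L : List Step) (M : ℕ),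
    (M.testBit i = true ∨ ∃ s ∈ L, sel s.v = true ∧ s.y.testBit i = true) →
    (fmask sel L M).testBit i = true := by
  intro L
  induction L with
  | nil =>
    rintro M (h | ⟨s, hs, -⟩)
    · exact h
    · simp at hs
  | cons s L ih =>
    rintro M (h | ⟨t, ht, h1, h2⟩)
    · exact ih _ (Or.inl (by simp [Nat.testBit_or, h]))
    · rcases List.mem_cons.1 ht with rfl | ht
      · exact ih _ (Or.inl (by simp [Nat.testBit_or, h1, h2]))
      · exact ih _ (Or.inr ⟨t, ht, h1, h2⟩)

/-! ### The digraph -/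

/-- Bit masks of the closed in-neighbourhoods. -/
def masks : List ℕ :=
  [5368709121, 2147483651, 22, 14, 56, 56, 224, 1216, 896, 832, 9728, 35840, 22528, 12544, 134242304, 53248, 100352, 458752, 458752, 1835008, 1703936, 11534336, 6815744, 46137344, 92274688, 54525952, 102760448, 218103808, 939524096, 805306369, 5905580032, 3489660928, 6442450948]

/-- The order of the dynamic program. -/
def steps : List Step :=
  [⟨0, 5368709121, 0, 8589934591⟩,
  ⟨32, 6442450948, 0, 8589934591⟩,
  ⟨30, 5905580032, 4294967296, 4294967295⟩,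
  ⟨31, 3489660928, 1073741824, 3221225471⟩,
  ⟨1, 2147483651, 2147483648, 1073741823⟩,
  ⟨29, 805306369, 1, 1073741822⟩,
  ⟨28, 939524096, 805306368, 268435454⟩,
  ⟨2, 22, 0, 268435454⟩,
  ⟨3, 14, 6, 268435448⟩,
  ⟨5, 56, 0, 268435448⟩,
  ⟨4, 56, 24, 268435424⟩,
  ⟨9, 832, 0, 268435424⟩,
  ⟨6, 224, 32, 268435392⟩,
  ⟨7, 1216, 64, 268435328⟩,
  ⟨8, 896, 128, 268435200⟩,
  ⟨10, 9728, 512, 268434688⟩,
  ⟨14, 134242304, 0, 268434688⟩,
  ⟨13, 12544, 8448, 268426240⟩,
  ⟨12, 22528, 0, 268426240⟩,
  ⟨15, 53248, 20480, 268405760⟩,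
  ⟨16, 100352, 0, 268405760⟩,
  ⟨11, 35840, 35840, 268369920⟩,
  ⟨26, 102760448, 0, 268369920⟩,
  ⟨27, 218103808, 134217728, 134152192⟩,
  ⟨24, 92274688, 67108864, 67043328⟩,
  ⟨25, 54525952, 16777216, 50266112⟩,
  ⟨23, 46137344, 33554432, 16711680⟩,
  ⟨21, 11534336, 8388608, 8323072⟩,
  ⟨22, 6815744, 6291456, 2031616⟩,
  ⟨20, 1703936, 0, 2031616⟩,
  ⟨19, 1835008, 1572864, 458752⟩,
  ⟨18, 458752, 0, 458752⟩,
  ⟨17, 458752, 458752, 0⟩]

/-- The digraph: `u → v` if `u ≠ v` and bit `u` of the mask of `v` is set. -/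
def D : Digraph (Fin 33) := ⟨fun u v => u ≠ v ∧ (masks.getD v.val 0).testBit u.val = true⟩

instance : DecidableRel D.Adj := fun u v =>
  inferInstanceAs (Decidable (u ≠ v ∧ (masks.getD v.val 0).testBit u.val = true))

theorem steps_ok : ok steps (2 ^ 33 - 1) = true := by decide +kernel

theorem steps_run : ∀ e ∈ run steps [(0, 0)], 15 ≤ e.2 := by decide +kernel

theorem steps_nodup : (steps.map fun s => s.v).Nodup := by decide +kernel

theorem steps_mem : ∀ u : Fin 33, ∃ s ∈ steps, s.v = u.val ∧ s.y = masks.getD u.val 0 := by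
  decide +kernel

theorem steps_done : ∀ s ∈ steps, s.done &&& (2 ^ 33 - 1) = s.done := by decide +kernel

theorem steps_lt : ∀ s ∈ steps, s.v < 33 := by decide +kernel

theorem self_mask : ∀ u : Fin 33, (masks.getD u.val 0).testBit u.val = true := by decide +kernel

theorem le_card_of_dominates (S : Finset (Fin 33)) (hS : Dominates (rev D) S) : 15 ≤ S.card := by
  set sel : ℕ → Bool := fun v => decide (∃ u ∈ S, u.val = v) with hsel
  have hfull : ∀ i : Fin 33, (fmask sel steps 0).testBit i.val = true := by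
    intro i
    apply fmask_testBit
    right
    have : ∃ u ∈ S, (masks.getD u.val 0).testBit i.val = true := by
      by_cases hi : i ∈ S
      · exact ⟨i, hi, self_mask i⟩
      · obtain ⟨u, hu, hadj⟩ := hS i hi
        exact ⟨u, hu, hadj.2⟩
    obtain ⟨u, hu, hbit⟩ := this
    obtain ⟨s, hs, hsv, hsy⟩ := steps_mem u
    refine ⟨s, hs, ?_, by rw [hsy]; exact hbit⟩
    simp only [hsel, decide_eq_true_eq]
    exact ⟨u, hu, hsv.symm⟩
  have hand : fmask sel steps 0 &&& (2 ^ 33 - 1) = 2 ^ 33 - 1 := by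
    apply Nat.eq_of_testBit_eq
    intro i
    rw [Nat.testBit_and, Nat.testBit_two_pow_sub_one]
    by_cases hi : i < 33
    · rw [hfull ⟨i, hi⟩]; simp
    · simp [hi]
  have hd : ∀ s ∈ steps, fmask sel steps 0 &&& s.done = s.done := by
    intro s hs
    rw [← steps_done s hs, Nat.and_comm s.done, ← Nat.and_assoc, hand]
  obtain ⟨e, he, hle⟩ := run_spec sel steps (2 ^ 33 - 1) 0 0 [(0, 0)] steps_ok
    ⟨(0, 0), by simp, by simp, le_rfl⟩ hd
  have h15 := steps_run e he
  have hcnt : ∀ L : List Step, (L.map fun s => s.v).Nodup → (∀ s ∈ L, s.v < 33) →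
      cnt sel L ≤ S.card := by
    intro L hn hlt
    have h1 : cnt sel L = ((L.map fun s => s.v).filter sel).length := by
      clear hn hlt
      induction L with
      | nil => rfl
      | cons s L ih =>
        unfold cnt
        rw [List.map_cons, List.filter_cons, ih]
        split_ifs
        · simp [Nat.add_comm]
        · simp
    rw [h1, ← List.toFinset_card_of_nodup (hn.filter _)]
    have hsub : ((L.map fun s => s.v).filter sel).toFinset ⊆ S.image Fin.val := by
      intro v hv
      rw [List.mem_toFinset, List.mem_filter] at hv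
      have := hv.2
      simp only [hsel, decide_eq_true_eq] at this
      obtain ⟨u, hu, huv⟩ := this
      exact Finset.mem_image.2 ⟨u, hu, huv⟩
    exact (Finset.card_le_card hsub).trans Finset.card_image_le
  have := hcnt steps steps_nodup steps_lt
  omega

theorem adj_succ : ∀ u : Fin 33, D.Adj u (u + 1) := by decide +kernel

theorem strong (u v : Fin 33) : Relation.ReflTransGen D.Adj u v := by
  have h : ∀ k : ℕ, Relation.ReflTransGen D.Adj u (u + Fin.ofNat 33 k) := by
    intro k
    induction k with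
    | zero => simpa using Relation.ReflTransGen.refl
    | succ k ih =>
      refine ih.tail ?_
      have h1 := adj_succ (u + Fin.ofNat 33 k)
      have h2 : Fin.ofNat 33 (k + 1) = Fin.ofNat 33 k + 1 := by
        apply Fin.ext
        simp [Fin.ofNat, Fin.val_add]
      rw [h2, ← add_assoc]
      exact h1
  have h3 := h (v - u).val
  have h4 : Fin.ofNat 33 (v - u).val = v - u := by
    apply Fin.ext
    simp [Fin.ofNat, Nat.mod_eq_of_lt]
  rw [h4] at h3
  simpa using h3

theorem out_card : ∀ v : Fin 33, (univ.filter fun w => D.Adj v w).card = 2 := by decide +kernel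

theorem in_card : ∀ v : Fin 33, (univ.filter fun w => D.Adj w v).card = 2 := by decide +kernel

theorem inClass : InClass 2 D where
  loopless := fun v hv => hv.1 rfl
  outdeg := fun v => by
    rw [← out_card v, ← Set.ncard_coe_finset]
    congr 1
    ext w; simp
  indeg := fun v => by
    rw [← in_card v, ← Set.ncard_coe_finset]
    congr 1
    ext w; simp
  strong := strong

theorem gamma_le : gamma D ≤ 11 := by
  apply Nat.sInf_le
  refine ⟨{1,5,8,10,14,16,20,22,26,28,32}, by decide +kernel, ?_⟩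
  unfold Dominates
  decide +kernel

theorem le_gamma_rev : 15 ≤ gamma (rev D) := by
  apply le_csInf
  · exact ⟨_, Finset.univ, rfl, fun v hv => absurd (Finset.mem_univ v) hv⟩
  · rintro m ⟨S, rfl, hS⟩
    exact le_card_of_dominates S hS

/-- There is a digraph `D` on 33 vertices in the class with `γ(D) ≤ 11` and `γ(D⁻) ≥ 15`;
hence `ρ_2 ≥ 15/11` (and the set of ratios is bounded above). -/
theorem result : (∃ D : Digraph (Fin 33), InClass 2 D ∧ gamma D ≤ 11 ∧ 15 ≤ gamma (rev D)) ∧
    BddAbove (ratios 2) ∧ (15 / 11 : ℝ) ≤ rho 2 := by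
  refine ⟨⟨D, inClass, gamma_le, le_gamma_rev⟩, bddAbove_ratios 2, ?_⟩
  have hmem : (gamma (rev D) : ℝ) / gamma D ∈ ratios 2 :=
    ⟨_, inferInstance, ⟨0⟩, D, inClass, rfl⟩
  refine le_trans ?_ (le_csSup (bddAbove_ratios 2) hmem)
  have hgpos : (0 : ℝ) < gamma D := by
    have h := card_le_gamma inClass
    have h33 : Fintype.card (Fin 33) = 33 := by simp
    rw [h33] at h
    have : 0 < gamma D := by
      rcases Nat.eq_zero_or_pos (gamma D) with h0 | h0
      · rw [h0] at h; omega
      · exact h0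
    exact_mod_cast this
  rw [le_div_iff₀ hgpos]
  have h1 : (gamma D : ℝ) ≤ 11 := by exact_mod_cast gamma_le
  have h2 : (15 : ℝ) ≤ gamma (rev D) := by exact_mod_cast le_gamma_rev
  linarith

end Pool.Agent.Results.MP_9a58dc_co.FifteenElevenths
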