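import Pool.Agent.Lib.MP_9a58dc_co.Cube
import Pool.Agent.Lib.MP_9a58dc_co.Small
import Pool.Agent.Lib.MP_9a58dc_co.ExplicitData
import Pool.Agent.Lib.MP_9a58dc_co.PairsA
import Pool.Agent.Lib.MP_9a58dc_co.PairsB
import Pool.Agent.Lib.MP_9a58dc_co.PairsC

/-!
Explicit lower bounds for `ρ_r` from the linear forms on a binary vector space.
-/

set_option autoImplicit false

namespace Pool.Agent.Results.MP_9a58dc_co.LinearForms

open Pool.Agent.Lib.MP_9a58dc_co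

/-- From a digraph of the extremal order to the two conclusions. -/
theorem wrap {V : Type} [Fintype V] [Nonempty V] (r t k : ℕ) (ht : 1 ≤ t) (D : Digraph V)
    (hD : InClass r D) (hcard : Fintype.card V = t * (r + 1)) (hg : gamma D ≤ t)
    (hgr : k ≤ gamma (rev D)) :
    (∃ (V : Type) (_ : Fintype V) (D : Digraph V), Fintype.card V = t * (r + 1) ∧
        InClass r D ∧ gamma D = t ∧ k ≤ gamma (rev D)) ∧
      (k : ℝ) / t ≤ rho r := by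
  have ht0 : (0 : ℝ) < t := by exact_mod_cast ht
  refine ⟨⟨V, inferInstance, D, hcard, hD, ?_, hgr⟩, ?_⟩
  · apply le_antisymm hg
    have h1 := card_le_gamma hD
    rw [hcard] at h1
    exact Nat.le_of_mul_le_mul_right h1 (by omega)
  · refine rho_ge_of_digraph D hD t k _ hg hgr ?_ (by positivity)
    rw [div_mul_cancel₀ _ ht0.ne']

/-- The digraphs with `γ = 2`. -/
theorem main (d r : ℕ) (hd : 2 ≤ d)
    (h : (2 ^ (d - 1) ∣ r + 1 ∧ 2 ^ d ≤ r + 1) ∨ (d + 1) * 2 ^ (d - 1) ≤ r + d + 1 ∨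
        (d = 3 ∧ 8 ≤ r ∧ r ≤ 10) ∨ (d = 4 ∧ (r = 19 ∨ 21 ≤ r ∧ r ≤ 34))) :
    (∃ (V : Type) (_ : Fintype V) (D : Digraph V), Fintype.card V = 2 * (r + 1) ∧
        InClass r D ∧ gamma D = 2 ∧ d + 1 ≤ gamma (rev D)) ∧
      ((d : ℝ) + 1) / 2 ≤ rho r := by
  have hcast : (((d + 1 : ℕ) : ℝ)) / ((2 : ℕ) : ℝ) = ((d : ℝ) + 1) / 2 := by push_cast; ring
  rw [← hcast]
  by_cases h3 : d = 3 ∧ 8 ≤ r ∧ r ≤ 10
  · clear h
    obtain ⟨rfl, h8, h10⟩ := h3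
    have h11 : r = 8 ∨ r = 9 ∨ r = 10 := by omega
    rcases h11 with rfl | rfl | rfl
    · obtain ⟨D, hD, hg, hgr⟩ := Explicit.digraph9
      exact wrap 8 2 4 (by norm_num) D hD (by simp) hg hgr
    · obtain ⟨D, hD, hg, hgr⟩ := Small.digraph10
      have : Nonempty (Gr 2 8) := ⟨(0, 0)⟩
      exact wrap 9 2 4 (by norm_num) D hD (by simp [Gr]) hg hgr
    · obtain ⟨D, hD, hg, hgr⟩ := Small.digraph11
      have : Nonempty (Gr 2 9) := ⟨(0, 0)⟩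
      exact wrap 10 2 4 (by norm_num) D hD (by simp [Gr]) hg hgr
  by_cases h4 : d = 4 ∧ (r = 19 ∨ 21 ≤ r ∧ r ≤ 34) ∧ r ≠ 23 ∧ r ≠ 31
  · obtain ⟨rfl, h5, h23, h31⟩ := h4
    have hw : ∀ m : ℕ, (∃ D : Digraph (Gr 2 m), InClass (m + 1) D ∧ gamma D ≤ 2 ∧
        5 ≤ gamma (rev D)) → (∃ (V : Type) (_ : Fintype V) (D : Digraph V),
          Fintype.card V = 2 * (m + 1 + 1) ∧
        InClass (m + 1) D ∧ gamma D = 2 ∧ 4 + 1 ≤ gamma (rev D)) ∧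
      (((4 + 1 : ℕ) : ℝ)) / ((2 : ℕ) : ℝ) ≤ rho (m + 1) := by
      rintro m ⟨D, hD, hg, hgr⟩
      have hcard : Fintype.card (Gr 2 m) = 2 * (m + 1 + 1) := by
        simp only [Gr, Fintype.card_prod, Fintype.card_fin]
        ring
      have hne : Nonempty (Gr 2 m) := ⟨(0, 0)⟩
      exact wrap (m + 1) 2 5 (by norm_num) D hD hcard hg hgr
    have h6 : r = 19 ∨ r = 21 ∨ r = 22 ∨ r = 24 ∨ r = 25 ∨ r = 26 ∨ r = 27 ∨ r = 28 ∨ r = 29 ∨
        r = 30 ∨ r = 32 ∨ r = 33 ∨ r = 34 := by omega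
    rcases h6 with rfl | rfl | rfl | rfl | rfl | rfl | rfl | rfl | rfl | rfl | rfl | rfl | rfl
    · exact hw 18 Pairs.digraph20
    · exact hw 20 Pairs.digraph22
    · exact hw 21 Pairs.digraph23
    · exact hw 23 Pairs.digraph25
    · exact hw 24 Pairs.digraph26
    · exact hw 25 Pairs.digraph27
    · exact hw 26 Pairs.digraph28
    · exact hw 27 Pairs.digraph29
    · exact hw 28 Pairs.digraph30
    · exact hw 29 Pairs.digraph31
    · exact hw 31 Pairs.digraph33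
    · exact hw 32 Pairs.digraph34
    · exact hw 33 Pairs.digraph35
  · obtain ⟨n, rfl⟩ : ∃ n, d = n + 1 := ⟨d - 1, by omega⟩
    rw [Nat.add_sub_cancel] at h
    have hr1 : 1 ≤ r := by
      have hp : 2 ^ 1 ≤ 2 ^ n := Nat.pow_le_pow_right (by norm_num) (by omega)
      have hp2 : n < 2 ^ n := Nat.lt_two_pow_self
      rcases h with ⟨_, h⟩ | h | h | h
      · rw [pow_succ] at h
        omega
      · nlinarith
      · omega
      · omega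
    obtain ⟨m, rfl⟩ : ∃ m, r = m + 1 := ⟨r - 1, by omega⟩
    obtain ⟨D, hD, hg, hgr⟩ := Cube.exists_digraph m n (by omega) (by
      rcases h with ⟨h1, h2⟩ | h | h | h
      · left
        refine ⟨h1, ?_⟩
        rw [pow_succ] at h2
        omega
      · right
        have h4 : (n + 1 + 1) * 2 ^ n = (n + 2) * 2 ^ n := by ring
        omega
      · exact absurd h h3
      · left
        obtain rfl : n = 3 := by omega
        have h5 : m + 1 = 23 ∨ m + 1 = 31 := by omega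
        rcases h5 with h5 | h5
        · obtain rfl : m = 22 := by omega
          decide
        · obtain rfl : m = 30 := by omega
          decide)
    have hcard : Fintype.card (Gr 2 m) = 2 * (m + 1 + 1) := by
      simp only [Gr, Fintype.card_prod, Fintype.card_fin]
      ring
    have hne : Nonempty (Gr 2 m) := ⟨(0, 0)⟩
    exact wrap (m + 1) 2 (n + 1 + 1) (by norm_num) D hD hcard hg hgr

/-- The digraphs with `γ = 3`. -/
theorem main3 (r : ℕ) (h4 : 4 ≤ r) (h6 : r ≤ 6) :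
    (∃ (V : Type) (_ : Fintype V) (D : Digraph V), Fintype.card V = 3 * (r + 1) ∧
        InClass r D ∧ gamma D = 3 ∧ 5 ≤ gamma (rev D)) ∧
      (5 : ℝ) / 3 ≤ rho r := by
  have hcast : ((5 : ℕ) : ℝ) / ((3 : ℕ) : ℝ) = (5 : ℝ) / 3 := by norm_num
  rw [← hcast]
  have h : r = 4 ∨ r = 5 ∨ r = 6 := by omega
  rcases h with rfl | rfl | rfl
  · obtain ⟨D, hD, hg, hgr⟩ := Explicit.digraph5
    exact wrap 4 3 5 (by norm_num) D hD (by simp) hg hgr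
  · obtain ⟨D, hD, hg, hgr⟩ := Explicit.digraph6
    exact wrap 5 3 5 (by norm_num) D hD (by simp) hg hgr
  · obtain ⟨D, hD, hg, hgr⟩ := Explicit.digraph7
    exact wrap 6 3 5 (by norm_num) D hD (by simp) hg hgr

theorem two_le (r : ℕ) (hr : 7 ≤ r) : (2 : ℝ) ≤ rho r := by
  have h0 : (2 ^ (3 - 1) ∣ r + 1 ∧ 2 ^ 3 ≤ r + 1) ∨ (3 + 1) * 2 ^ (3 - 1) ≤ r + 3 + 1 ∨
      (3 = 3 ∧ 8 ≤ r ∧ r ≤ 10) ∨ (3 = 4 ∧ (r = 19 ∨ 21 ≤ r ∧ r ≤ 34)) := by
    norm_num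
    omega
  have h1 := (main 3 r (by norm_num) h0).2
  norm_num at h1
  exact h1

theorem five_halves_le (r : ℕ) (hr : 21 ≤ r) : (5 / 2 : ℝ) ≤ rho r := by
  have h0 : (2 ^ (4 - 1) ∣ r + 1 ∧ 2 ^ 4 ≤ r + 1) ∨ (4 + 1) * 2 ^ (4 - 1) ≤ r + 4 + 1 ∨
      (4 = 3 ∧ 8 ≤ r ∧ r ≤ 10) ∨ (4 = 4 ∧ (r = 19 ∨ 21 ≤ r ∧ r ≤ 34)) := by
    norm_num
    omega
  have h1 := (main 4 r (by norm_num) h0).2
  norm_num at h1
  exact h1

theorem result :
    (∀ r : ℕ, BddAbove (ratios r)) ∧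
    (∀ d r : ℕ, 2 ≤ d →
      ((2 ^ (d - 1) ∣ r + 1 ∧ 2 ^ d ≤ r + 1) ∨ (d + 1) * 2 ^ (d - 1) ≤ r + d + 1 ∨
        (d = 3 ∧ 8 ≤ r ∧ r ≤ 10) ∨ (d = 4 ∧ (r = 19 ∨ 21 ≤ r ∧ r ≤ 34))) →
      (∃ (V : Type) (_ : Fintype V) (D : Digraph V), Fintype.card V = 2 * (r + 1) ∧
        InClass r D ∧ gamma D = 2 ∧ d + 1 ≤ gamma (rev D)) ∧
      ((d : ℝ) + 1) / 2 ≤ rho r) ∧
    (∀ r : ℕ, 4 ≤ r → r ≤ 6 →
      ∃ (V : Type) (_ : Fintype V) (D : Digraph V), Fintype.card V = 3 * (r + 1) ∧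
        InClass r D ∧ gamma D = 3 ∧ 5 ≤ gamma (rev D)) ∧
    (3 / 2 : ℝ) ≤ rho 3 ∧
    (∀ r : ℕ, 4 ≤ r → (5 / 3 : ℝ) ≤ rho r) ∧
    (∀ r : ℕ, 7 ≤ r → (2 : ℝ) ≤ rho r) ∧
    (∀ r : ℕ, 21 ≤ r → (5 / 2 : ℝ) ≤ rho r) := by
  refine ⟨bddAbove_ratios, main, fun r h4 h6 => (main3 r h4 h6).1, ?_, ?_, two_le,
    five_halves_le⟩
  · have h1 := (main 2 3 le_rfl (Or.inl ⟨by norm_num, by norm_num⟩)).2
    norm_num at h1
    exact h1
  · intro r hr
    rcases Nat.lt_or_ge 6 r with h | h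
    · have := two_le r h
      linarith
    · exact (main3 r hr h).2

end Pool.Agent.Results.MP_9a58dc_co.LinearForms
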