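import Pool.Agent.Lib.MP_9a58dc_co.ManyMain
import Pool.Agent.Lib.MP_9a58dc_co.RandReal2
import Pool.Agent.Lib.MP_9a58dc_co.UpperAll
import Pool.Agent.Lib.MP_9a58dc_co.Two

/-!
Explicit two-sided bounds for `ρ_r`, for every `r ≥ 2`.
-/

set_option autoImplicit false

namespace Pool.Agent.Results.MP_9a58dc_co.LogBounds

open Finset Pool.Agent.Lib.MP_9a58dc_co

/-- The lower bound for every `r ≥ 2`. -/
theorem lower (r : ℕ) (hr : 2 ≤ r) :
    Real.log ((r : ℝ) + 1) - 2 * Real.log (Real.log ((r : ℝ) + 1)) ≤ rho r := by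
  have hcast : ((r + 1 : ℕ) : ℝ) = (r : ℝ) + 1 := by push_cast; ring
  rcases Nat.lt_or_ge (r + 1) 64 with h64 | h64
  · have h1 := small_two (r + 1) (by omega) (by omega)
    rw [hcast] at h1
    rcases Nat.lt_or_ge r 3 with h3 | h3
    · obtain rfl : r = 2 := by omega
      refine le_trans ?_ (Two.one_le_rho 2)
      obtain ⟨L, hL⟩ : ∃ L : ℝ, L = Real.log (((2 : ℕ) : ℝ) + 1) := ⟨_, rfl⟩
      rw [← hL]
      have h3 : ((2 : ℕ) : ℝ) + 1 = 3 := by norm_num
      rw [h3] at hL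
      have hL1 : 1 ≤ L := by
        rw [hL, Real.le_log_iff_exp_le (by norm_num)]
        have h4 := Real.exp_one_lt_d9
        linarith
      have hL2 : L ≤ 2 := by
        rw [hL]
        have := Real.log_le_sub_one_of_pos (show (0 : ℝ) < 3 by norm_num)
        linarith
      have hL0 : 0 < L := by linarith
      have h5 := Real.log_le_sub_one_of_pos (show 0 < 1 / L by positivity)
      rw [Real.log_div one_ne_zero hL0.ne', Real.log_one] at h5
      have h6 : L + 2 * (1 / L) ≤ 3 := by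
        have h7 : L + 2 * (1 / L) = (L ^ 2 + 2) / L := by field_simp
        rw [h7, div_le_iff₀ hL0]
        nlinarith
      linarith
    · have h2 := Two.three_halves r h3
      linarith
  · obtain ⟨h1, h2, h3, h4, h5⟩ := entropy2 (r + 1) h64
      (Real.log ((r + 1 : ℕ) : ℝ) - 2 * Real.log (Real.log ((r + 1 : ℕ) : ℝ))) rfl
    have h6 := rho_ge_entropy r (by omega) _ h2 h3 (by
      unfold expo2
      exact h5)
    rw [← hcast, h4, hcast] at h6
    exact h6

theorem result :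
    (∀ r : ℕ, (ratios r).Nonempty ∧ BddAbove (ratios r)) ∧
    (∀ r : ℕ, 2 ≤ r →
      Real.log ((r : ℝ) + 1) - 2 * Real.log (Real.log ((r : ℝ) + 1)) ≤ rho r ∧
        rho r ≤ 1 + Real.log ((r : ℝ) + 1)) ∧
    (∀ (r : ℕ) (a : ℝ), 2 ≤ r → 0 < a → a < 1 →
      ((r : ℝ) + 1) * (-(a * Real.log a) - (1 - a) * Real.log (1 - a)) +
        ((r : ℝ) - 1) * Real.log (1 - (1 - a) ^ (r + 1)) < 0 →
      a * ((r : ℝ) + 1) ≤ rho r) := by
  refine ⟨fun r => ⟨⟨1, Two.one_mem_ratios r⟩, bddAbove_ratios r⟩,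
    fun r hr => ⟨lower r hr, rho_le_log r hr⟩, fun r a hr h0 h1 h => ?_⟩
  refine rho_ge_entropy r (by omega) a h0 h1 ?_
  unfold expo2
  push_cast
  have h2 : (r : ℝ) + 1 - 2 = (r : ℝ) - 1 := by ring
  rw [h2]
  exact h

end Pool.Agent.Results.MP_9a58dc_co.LogBounds
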