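import Mathlib
import Pool.Agent.Lib.MP_9a58dc_co.Defs
import Pool.Agent.Lib.MP_9a58dc_co.UB.Final

/-!
`ρ_2 ≤ 761/508`: the first upper bound below `3/2`.

The closed out-neighbourhoods of a loopless digraph with all in- and out-degrees `2` are the edges of
a `3`-uniform `3`-regular hypergraph on the vertices.  A dominating set `K` of size `(n + b)/3` is a
family of these edges covering all but `b` items exactly once.  Near an item all of whose
neighbours at distance at most `2` are covered exactly once, an explicit certificate (checked by the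
kernel, see `UB/Check.lean` and `UB/Cert.lean`) gives at most `3` items that do better by one than
the Chvátal-McDiarmid bound `4 |T| ≤ edges + items`; disjoint such places are combined with the
Chvátal-McDiarmid theorem for `3`-uniform hypergraphs (`UB/CM.lean`) on the rest.
-/

set_option autoImplicit false

namespace Pool.Agent.Results.MP_9a58dc_co.UpperBound

open Pool.Agent.Lib.MP_9a58dc_co

theorem ratios_le : ∀ x ∈ ratios 2, x ≤ 761 / 508 := by
  rintro x ⟨V, hV, _, D, hD, rfl⟩
  have h := UB.upper D hD.loopless hD.outdeg hD.indeg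
  apply div_le_of_le_mul₀ (by positivity) (by norm_num)
  have h2 : (508 : ℝ) * gamma (rev D) ≤ 761 * gamma D := by exact_mod_cast h
  linarith

/-- the complete digraph on three vertices -/
def K3 : Digraph (Fin 3) := ⟨fun u v => u ≠ v⟩

instance : DecidableRel K3.Adj := fun u v => inferInstanceAs (Decidable (u ≠ v))

theorem K3_out : ∀ v : Fin 3, (Finset.univ.filter fun w => K3.Adj v w).card = 2 := by decide

theorem K3_in : ∀ v : Fin 3, (Finset.univ.filter fun w => K3.Adj w v).card = 2 := by decide

theorem ratios_nonempty : (ratios 2).Nonempty := by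
  refine ⟨_, Fin 3, inferInstance, ⟨0⟩, K3, ⟨fun v h => h rfl, fun v => ?_, fun v => ?_,
    fun u v => ?_⟩, rfl⟩
  · rw [← K3_out v, ← Set.ncard_coe_finset]
    congr 1
    ext w; simp
  · rw [← K3_in v, ← Set.ncard_coe_finset]
    congr 1
    ext w; simp
  · by_cases h : u = v
    · rw [h]
    · exact Relation.ReflTransGen.single h

/-- For every finite loopless digraph with all in-degrees and out-degrees equal to `2`,
`508 γ(D⁻) ≤ 761 γ(D)`; in particular `ρ_2 ≤ 761/508 < 3/2`. -/
theorem result :
    (∀ (V : Type) [Finite V] (D : Digraph V), (∀ v, ¬ D.Adj v v) →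
      (∀ v, Set.ncard {w | D.Adj v w} = 2) → (∀ v, Set.ncard {w | D.Adj w v} = 2) →
      508 * gamma (rev D) ≤ 761 * gamma D) ∧
    (ratios 2).Nonempty ∧ BddAbove (ratios 2) ∧ rho 2 ≤ (761 / 508 : ℝ) :=
  ⟨fun _ _ D hl ho hi => UB.upper D hl ho hi, ratios_nonempty, ⟨_, ratios_le⟩,
    csSup_le ratios_nonempty ratios_le⟩

end Pool.Agent.Results.MP_9a58dc_co.UpperBound
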